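import Pool.Agent.Helper879.ECD.Cuts

set_option autoImplicit false
set_option linter.unusedSectionVars false

/-!
L1: colouring the edges outside a spanning forest with three colours so that no fundamental cut
(without its forest edge) with at least two elements is monochromatic.
-/

namespace Pool.Agent.H126R2.NC

open Finset
open Pool.Agent.Helper879.ECD (cn)

variable {W E : Type} [Fintype W] [DecidableEq W] [Fintype E] [DecidableEq E]

/-- `e` crosses `X` -/
abbrev cr (a b : E → W) (X : Finset W) (e : E) : Prop := ¬ (a e ∈ X ↔ b e ∈ X)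

/-- `T` meets every nonempty cut -/
def Spn (a b : E → W) (T : Finset E) : Prop :=
  ∀ X : Finset W, (∀ t ∈ T, ¬ cr a b X t) → ∀ e, ¬ cr a b X e

/-- every edge of `T` is the only edge of `T` in some cut -/
def Acy (a b : E → W) (T : Finset E) : Prop :=
  ∀ t ∈ T, ∃ X : Finset W, cr a b X t ∧ ∀ t' ∈ T, t' ≠ t → ¬ cr a b X t'

lemma lg_and {p q r s : Prop} (h1 : ¬¬(p ↔ q)) (h2 : ¬¬(r ↔ s)) : ¬¬((p ∧ r) ↔ (q ∧ s)) := by
  rw [not_not] at *
  rw [h1, h2]

lemma lg_x1 {p q r s : Prop} (h1 : ¬¬(p ↔ q)) (h2 : ¬ r) (h3 : ¬ s) :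
    ¬¬(¬(p ↔ r) ↔ ¬(q ↔ s)) := by
  rw [not_not] at *
  rw [h1]
  simp [h2, h3]

lemma lg_x2 {p q r s : Prop} (h1 : ¬¬(¬(p ↔ r) ↔ ¬(q ↔ s))) : ¬(p ↔ q) ↔ ¬(r ↔ s) := by
  rw [not_not] at h1
  by_cases hp : p <;> by_cases hq : q <;> by_cases hr : r <;> by_cases hs : s <;> simp_all

lemma lg_x3 {p q r s : Prop} (h1 : ¬(p ↔ q)) (h2 : r) (h3 : ¬ s) :
    ¬(p ↔ r) ↔ ¬(q ↔ s) := by
  by_cases hp : p <;> by_cases hq : q <;> simp_all

lemma exists_leaf (a b : E → W) {T : Finset E} (h : Acy a b T) (hne : T.Nonempty) :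
    ∃ t ∈ T, ∃ v u : W, v ≠ u ∧ ((a t = v ∧ b t = u) ∨ (a t = u ∧ b t = v)) ∧
      ∀ t' ∈ T, t' ≠ t → a t' ≠ v ∧ b t' ≠ v := by
  classical
  let P : Finset (Finset W) := univ.filter (fun X => ∃ t ∈ T, cr a b X t ∧
    ∀ t' ∈ T, t' ≠ t → ¬ cr a b X t')
  have hP : P.Nonempty := by
    obtain ⟨t, ht⟩ := hne
    obtain ⟨X, hX⟩ := h t ht
    exact ⟨X, by rw [Finset.mem_filter]; exact ⟨Finset.mem_univ _, t, ht, hX⟩⟩
  obtain ⟨S, hS, hmin⟩ := Finset.exists_min_image P Finset.card hP
  obtain ⟨t, ht, hc, ho⟩ := (Finset.mem_filter.1 hS).2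
  have hvu : ∃ v u : W, v ∈ S ∧ u ∉ S ∧ ((a t = v ∧ b t = u) ∨ (a t = u ∧ b t = v)) := by
    by_cases ha : a t ∈ S
    · exact ⟨a t, b t, ha, fun hb => hc ⟨fun _ => hb, fun _ => ha⟩, Or.inl ⟨rfl, rfl⟩⟩
    · refine ⟨b t, a t, ?_, ha, Or.inr ⟨rfl, rfl⟩⟩
      by_contra hb
      exact hc ⟨fun h => absurd h ha, fun h => absurd h hb⟩
  obtain ⟨v, u, hv, hu, hvu⟩ := hvu
  refine ⟨t, ht, v, u, fun h => hu (h ▸ hv), hvu, ?_⟩
  intro t2 ht2 hne2
  by_contra hcon
  -- the other end of t2
  have hw : ∃ w, (a t2 = v ∧ b t2 = w) ∨ (a t2 = w ∧ b t2 = v) := by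
    by_cases h1 : a t2 = v
    · exact ⟨b t2, Or.inl ⟨h1, rfl⟩⟩
    · by_cases h2 : b t2 = v
      · exact ⟨a t2, Or.inr ⟨rfl, h2⟩⟩
      · exact absurd ⟨h1, h2⟩ hcon
  obtain ⟨w, hw⟩ := hw
  have hwS : w ∈ S := by
    have := ho t2 ht2 hne2
    rw [not_not] at this
    rcases hw with ⟨h1, h2⟩ | ⟨h1, h2⟩
    · rw [h1, h2] at this; exact this.1 hv
    · rw [h1, h2] at this; exact this.2 hv
  obtain ⟨S2', hS2c, hS2o⟩ := h t2 ht2
  -- normalise so that `v` is outside
  have hS2 : ∃ S2 : Finset W, v ∉ S2 ∧ cr a b S2 t2 ∧ ∀ t' ∈ T, t' ≠ t2 → ¬ cr a b S2 t' := by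
    by_cases h1 : v ∈ S2'
    · refine ⟨S2'ᶜ, by simpa using h1, ?_, ?_⟩
      · simp only [cr, Finset.mem_compl]
        exact fun h => hS2c (not_iff_not.1 h)
      · intro t' ht' hne'
        have := hS2o t' ht' hne'
        simp only [cr, Finset.mem_compl]
        exact fun h => this (fun h' => h (not_iff_not.2 h'))
    · exact ⟨S2', h1, hS2c, hS2o⟩
  obtain ⟨S2, hvS2, hS2c, hS2o⟩ := hS2
  have hwS2 : w ∈ S2 := by
    by_contra h1
    apply hS2c
    rcases hw with ⟨h2, h3⟩ | ⟨h2, h3⟩
    · rw [h2, h3]; exact ⟨fun h => absurd h hvS2, fun h => absurd h h1⟩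
    · rw [h2, h3]; exact ⟨fun h => absurd h h1, fun h => absurd h hvS2⟩
  have hmem : S ∩ S2 ∈ P := by
    rw [Finset.mem_filter]
    refine ⟨Finset.mem_univ _, t2, ht2, ?_, ?_⟩
    · intro h1
      simp only [Finset.mem_inter] at h1
      rcases hw with ⟨h2, h3⟩ | ⟨h2, h3⟩
      · rw [h2, h3] at h1; exact hvS2 (h1.2 ⟨hwS, hwS2⟩).2
      · rw [h2, h3] at h1; exact hvS2 (h1.1 ⟨hwS, hwS2⟩).2
    · intro t' ht' hne'
      by_cases htt : t' = t
      · subst htt
        simp only [cr, Finset.mem_inter]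
        rw [not_not]
        rcases hvu with ⟨h2, h3⟩ | ⟨h2, h3⟩
        · rw [h2, h3]; exact ⟨fun h => absurd h.2 hvS2, fun h => absurd h.1 hu⟩
        · rw [h2, h3]; exact ⟨fun h => absurd h.1 hu, fun h => absurd h.2 hvS2⟩
      · have h1 := ho t' ht' htt
        have h2 := hS2o t' ht' hne'
        simp only [cr, Finset.mem_inter]
        exact lg_and h1 h2
  have hlt : (S ∩ S2).card < S.card := by
    apply Finset.card_lt_card
    rw [Finset.ssubset_iff_of_subset Finset.inter_subset_left]
    exact ⟨v, hv, fun h => hvS2 (Finset.mem_inter.1 h).2⟩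
  exact absurd (hmin _ hmem) (not_le.2 hlt)

lemma third (x y : Fin 3) : ∃ z : Fin 3, z ≠ x ∧ z ≠ y := by
  revert x y; decide

lemma greedy (σ : E × Bool → E × Bool) (hσ : ∀ h, σ (σ h) = h)
    (hne : ∀ h, σ h ≠ h → (σ h).1 ≠ h.1) (L : Finset E) :
    ∀ (c0 : E → Fin 3),
    (∀ h, σ h ≠ h → h.1 ∉ L → (σ h).1 ∉ L → c0 (σ h).1 ≠ c0 h.1) →
    ∃ c : E → Fin 3, (∀ e ∉ L, c e = c0 e) ∧ ∀ h, σ h ≠ h → c (σ h).1 ≠ c h.1 := by
  induction L using Finset.induction_on with
  | empty =>
    intro c0 h0
    exact ⟨c0, fun _ _ => rfl, fun h hh => h0 h hh (by simp) (by simp)⟩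
  | insert e L heL ih =>
    intro c0 h0
    obtain ⟨k, hk1, hk2⟩ := third (c0 (σ (e, false)).1) (c0 (σ (e, true)).1)
    obtain ⟨c, hc1, hc2⟩ := ih (Function.update c0 e k) (by
      intro h hh hL1 hL2
      by_cases h1 : h.1 = e
      · have h2 : (σ h).1 ≠ e := h1 ▸ hne h hh
        rw [Function.update_of_ne h2, h1, Function.update_self]
        obtain ⟨h', b⟩ := h
        simp only at h1
        subst h1
        cases b
        · exact hk1.symm
        · exact hk2.symm
      · by_cases h2 : (σ h).1 = e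
        · rw [Function.update_of_ne h1, h2, Function.update_self]
          generalize hh' : σ h = h' at *
          have h3 : σ h' = h := by rw [← hh', hσ]
          obtain ⟨h'', b⟩ := h'
          simp only at h2
          subst h2
          cases b
          · rw [h3] at hk1; exact hk1
          · rw [h3] at hk2; exact hk2
        · rw [Function.update_of_ne h1, Function.update_of_ne h2]
          exact h0 h hh (by simp [h1, hL1]) (by simp [h2, hL2]))
    refine ⟨c, ?_, hc2⟩
    intro f hf
    rw [Finset.mem_insert, not_or] at hf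
    rw [hc1 f hf.2, Function.update_of_ne hf.1]

/-- the vertex of a half-edge -/
def loc (a b : E → W) (h : E × Bool) : W := if h.2 then b h.1 else a h.1

lemma loc_cr {a b : E → W} {h : E × Bool} {v : W} (hv : loc a b h = v) (hne : a h.1 ≠ b h.1) :
    cr a b {v} h.1 := by
  obtain ⟨e, s⟩ := h
  cases s
  · simp only [loc, Bool.false_eq_true, if_false] at hv
    simp only [cr, Finset.mem_singleton]
    intro h1
    exact hne (hv.trans (h1.1 hv).symm)
  · simp only [loc, if_true] at hv
    simp only [cr, Finset.mem_singleton]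
    intro h1
    exact hne ((h1.2 hv).trans hv.symm)

lemma cr_loc {a b : E → W} {e : E} {v : W} (h : cr a b {v} e) :
    ∃ s, loc a b (e, s) = v ∧ a e ≠ b e := by
  simp only [cr, Finset.mem_singleton] at h
  have hne : a e ≠ b e := fun h1 => h (by rw [h1])
  by_cases h1 : a e = v
  · exact ⟨false, by simp [loc, h1], hne⟩
  · by_cases h2 : b e = v
    · exact ⟨true, by simp [loc, h2], hne⟩
    · exact absurd ⟨fun h => absurd h h1, fun h => absurd h h2⟩ h

theorem tree_colouring : ∀ (n : ℕ) (a b : E → W) (T : Finset E), T.card = n →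
    Acy a b T → Spn a b T →
    ∀ σ : E × Bool → E × Bool, (∀ h, σ (σ h) = h) →
    (∀ h, σ h ≠ h → loc a b (σ h) = loc a b h ∧ (σ h).1 ≠ h.1 ∧ a h.1 ≠ b h.1 ∧ h.1 ∉ T) →
    ∃ c : E → Fin 3, (∀ h, σ h ≠ h → c (σ h).1 ≠ c h.1) ∧
      ∀ X : Finset W, cn a b T X = 1 →
        2 ≤ (univ.filter (fun e => e ∉ T ∧ cr a b X e)).card →
        ∃ e e', e ∉ T ∧ cr a b X e ∧ e' ∉ T ∧ cr a b X e' ∧ c e ≠ c e' := by
  classical
  intro n
  induction n with
  | zero =>
    intro a b T hT hA hS σ hσ hσ2
    rw [Finset.card_eq_zero] at hT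
    subst hT
    refine ⟨fun _ => 0, ?_, ?_⟩
    · intro h hh
      exfalso
      have h1 := hS {a h.1} (by simp) h.1
      rw [not_not] at h1
      have h2 := h1.1 (Finset.mem_singleton_self _)
      exact (hσ2 h hh).2.2.1 (Finset.mem_singleton.1 h2).symm
    · intro X hX
      simp [cn] at hX
  | succ n ih =>
    intro a b T hT hA hS σ hσ hσ2
    have hTne : T.Nonempty := by
      rw [← Finset.card_pos]; omega
    obtain ⟨t, ht, v, u, hvu, htv, hleaf⟩ := exists_leaf a b hA hTne
    -- Step 1: a constraint at `v`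
    obtain ⟨σ1, hσ1, hσ12, hext, hact⟩ : ∃ σ1 : E × Bool → E × Bool, (∀ h, σ1 (σ1 h) = h) ∧
        (∀ h, σ1 h ≠ h → loc a b (σ1 h) = loc a b h ∧ (σ1 h).1 ≠ h.1 ∧ a h.1 ≠ b h.1 ∧
          h.1 ∉ T) ∧ (∀ h, σ h ≠ h → σ1 h = σ h) ∧
        (2 ≤ (univ.filter (fun e => e ∉ T ∧ cr a b {v} e)).card →
          ∃ h, σ1 h ≠ h ∧ loc a b h = v) := by
      by_cases hex : ∃ h, σ h ≠ h ∧ loc a b h = v
      · exact ⟨σ, hσ, hσ2, fun _ _ => rfl, fun _ => hex⟩
      · by_cases hcard : 2 ≤ (univ.filter (fun e => e ∉ T ∧ cr a b {v} e)).card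
        · obtain ⟨e1, he1, e2, he2, hne12⟩ := Finset.one_lt_card.1 hcard
          rw [Finset.mem_filter] at he1 he2
          obtain ⟨s1, hs1, hn1⟩ := cr_loc he1.2.2
          obtain ⟨s2, hs2, hn2⟩ := cr_loc he2.2.2
          have hfix : ∀ h, loc a b h = v → σ h = h := by
            intro h hh
            by_contra hc
            exact hex ⟨h, hc, hh⟩
          have hf1 := hfix _ hs1
          have hf2 := hfix _ hs2
          have h12 : (e1, s1) ≠ (e2, s2) := fun h => hne12 (congrArg Prod.fst h)
          refine ⟨fun h => if h = (e1, s1) then (e2, s2) else if h = (e2, s2) then (e1, s1)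
            else σ h, ?_, ?_, ?_, ?_⟩
          · intro h
            by_cases h1 : h = (e1, s1)
            · subst h1
              simp [h12.symm]
            · by_cases h2 : h = (e2, s2)
              · subst h2
                simp [h1]
              · have h3 : σ h ≠ (e1, s1) := by
                  intro h3
                  apply h1
                  rw [← hσ h, h3, hf1]
                have h4 : σ h ≠ (e2, s2) := by
                  intro h4
                  apply h2
                  rw [← hσ h, h4, hf2]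
                simp only [h1, h2, h3, h4, if_false]
                exact hσ h
          · intro h
            by_cases h1 : h = (e1, s1)
            · subst h1
              simp only [if_true]
              intro _
              exact ⟨hs2.trans hs1.symm, hne12.symm, hn1, he1.2.1⟩
            · by_cases h2 : h = (e2, s2)
              · subst h2
                simp only [h1, if_false, if_true]
                intro _
                exact ⟨hs1.trans hs2.symm, hne12, hn2, he2.2.1⟩
              · simp only [h1, h2, if_false]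
                exact hσ2 h
          · intro h hh
            have h1 : h ≠ (e1, s1) := fun h1 => hh (by rw [h1, hf1])
            have h2 : h ≠ (e2, s2) := fun h2 => hh (by rw [h2, hf2])
            simp only [h1, h2, if_false]
          · intro _
            refine ⟨(e1, s1), ?_, hs1⟩
            simp only [if_true]
            exact h12.symm
        · exact ⟨σ, hσ, hσ2, fun _ _ => rfl, fun h => absurd h hcard⟩
    -- Step 2: contraction
    let ρ : W → W := fun w => if w = v then u else w
    have hρv : ρ v = u := if_pos rfl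
    have hρne : ∀ w, w ≠ v → ρ w = w := fun w hw => if_neg hw
    have hρX : ∀ X : Finset W, (v ∈ X ↔ u ∈ X) → ∀ w, ρ w ∈ X ↔ w ∈ X := by
      intro X hX w
      by_cases hw : w = v
      · rw [hw, hρv]; exact hX.symm
      · rw [hρne w hw]
    have hcrX : ∀ X : Finset W, (v ∈ X ↔ u ∈ X) → ∀ e,
        (cr (fun e => ρ (a e)) (fun e => ρ (b e)) X e ↔ cr a b X e) := by
      intro X hX e
      simp only [cr, hρX X hX]
    have htX : ∀ X : Finset W, ¬ cr a b X t ↔ (v ∈ X ↔ u ∈ X) := by
      intro X
      simp only [cr]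
      rw [not_not]
      rcases htv with ⟨h1, h2⟩ | ⟨h1, h2⟩
      · rw [h1, h2]
      · rw [h1, h2]; exact ⟨fun h => h.symm, fun h => h.symm⟩
    have hT'card : (T.erase t).card = n := by
      rw [Finset.card_erase_of_mem ht, hT]; rfl
    have hA' : Acy (fun e => ρ (a e)) (fun e => ρ (b e)) (T.erase t) := by
      intro t' ht'
      rw [Finset.mem_erase] at ht'
      obtain ⟨X, hX1, hX2⟩ := hA t' ht'.2
      have hXt := (htX X).1 (hX2 t ht ht'.1.symm)
      refine ⟨X, (hcrX X hXt t').2 hX1, ?_⟩
      intro t'' ht'' hne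
      rw [hcrX X hXt]
      exact hX2 t'' (Finset.mem_of_mem_erase ht'') hne
    have hS' : Spn (fun e => ρ (a e)) (fun e => ρ (b e)) (T.erase t) := by
      intro X hX e
      have h1 : ∀ e, cr a b (univ.filter (fun w => ρ w ∈ X)) e ↔
          cr (fun e => ρ (a e)) (fun e => ρ (b e)) X e := by
        intro e; simp [cr]
      rw [← h1]
      apply hS
      intro t' ht'
      by_cases htt : t' = t
      · subst htt
        rw [htX]
        simp only [Finset.mem_filter, Finset.mem_univ, true_and, hρv, hρne u hvu.symm]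
      · rw [h1]
        exact hX t' (Finset.mem_erase.2 ⟨htt, ht'⟩)
    let A : E × Bool → Prop := fun h => ρ (a h.1) ≠ ρ (b h.1) ∧ ρ (a (σ1 h).1) ≠ ρ (b (σ1 h).1)
    have hAσ : ∀ h, A h → A (σ1 h) := by
      intro h hh
      refine ⟨hh.2, ?_⟩
      rw [hσ1]; exact hh.1
    have hloc : ∀ h, loc (fun e => ρ (a e)) (fun e => ρ (b e)) h = ρ (loc a b h) := by
      intro h
      obtain ⟨e, s⟩ := h
      cases s <;> simp [loc]
    obtain ⟨c', hc'1, hc'2⟩ := ih (fun e => ρ (a e)) (fun e => ρ (b e)) (T.erase t) hT'card hA' hS'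
      (fun h => if A h then σ1 h else h)
      (by
        intro h
        by_cases hh : A h
        · simp only [hh, if_true, hAσ h hh]
          exact hσ1 h
        · simp only [hh, if_false])
      (by
        intro h
        by_cases hh : A h
        · simp only [hh, if_true]
          intro h1
          obtain ⟨h2, h3, h4, h5⟩ := hσ12 h h1
          refine ⟨?_, h3, hh.1, fun h6 => h5 (Finset.mem_of_mem_erase h6)⟩
          rw [hloc, hloc, h2]
        · simp only [hh, if_false]
          intro h1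
          exact absurd rfl h1)
    -- Step 3: recolouring
    obtain ⟨c, hc1, hc2⟩ := greedy σ1 hσ1 (fun h hh => (hσ12 h hh).2.1)
      (univ.filter (fun e => ρ (a e) = ρ (b e))) c' (by
        intro h hh h1 h2
        rw [Finset.mem_filter] at h1 h2
        have hAh : A h := ⟨fun h3 => h1 ⟨Finset.mem_univ _, h3⟩,
          fun h3 => h2 ⟨Finset.mem_univ _, h3⟩⟩
        have h3 := hc'1 h (by simp only [hAh, if_true]; exact hh)
        simp only [hAh, if_true] at h3
        exact h3)
    refine ⟨c, ?_, ?_⟩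
    · intro h hh
      have h1 := hext h hh
      have h2 := hc2 h (by rw [h1]; exact hh)
      rw [h1] at h2
      exact h2
    · intro X hX1 hX2
      by_cases htc : cr a b X t
      · -- the cut of the leaf edge
        have honly : ∀ t' ∈ T, t' ≠ t → ¬ cr a b X t' := by
          intro t' ht' hne hc
          unfold cn at hX1
          obtain ⟨t0, ht0⟩ := Finset.card_eq_one.1 hX1
          have h1 : t ∈ T.filter (fun e => ¬ (a e ∈ X ↔ b e ∈ X)) :=
            Finset.mem_filter.2 ⟨ht, htc⟩
          have h2 : t' ∈ T.filter (fun e => ¬ (a e ∈ X ↔ b e ∈ X)) :=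
            Finset.mem_filter.2 ⟨ht', hc⟩
          rw [ht0, Finset.mem_singleton] at h1 h2
          exact hne (h2.trans h1.symm)
        have hiff : ∀ e, cr a b X e ↔ cr a b {v} e := by
          intro e
          have h1 := hS (univ.filter (fun w => ¬ (w ∈ X ↔ w = v))) (by
            intro t' ht'
            by_cases htt : t' = t
            · subst htt
              have h2 : ¬ (v ∈ X ↔ u ∈ X) := fun h => (htX X).2 h htc
              rw [htX]
              simp only [Finset.mem_filter, Finset.mem_univ, true_and]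
              exact lg_x3 h2 trivial hvu.symm
            · have h2 := honly t' ht' htt
              obtain ⟨h3, h4⟩ := hleaf t' ht' htt
              simp only [cr, Finset.mem_filter, Finset.mem_univ, true_and]
              exact lg_x1 h2 h3 h4) e
          simp only [cr, Finset.mem_filter, Finset.mem_univ, true_and] at h1
          simp only [cr, Finset.mem_singleton]
          exact lg_x2 h1
        have h2 : 2 ≤ (univ.filter (fun e => e ∉ T ∧ cr a b {v} e)).card := by
          have h3 : (univ.filter (fun e => e ∉ T ∧ cr a b {v} e)) =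
              (univ.filter (fun e => e ∉ T ∧ cr a b X e)) := by
            apply Finset.filter_congr
            intro e _
            rw [hiff e]
          rw [h3]; exact hX2
        obtain ⟨h, hh1, hh2⟩ := hact h2
        obtain ⟨g1, g2, g3, g4⟩ := hσ12 h hh1
        have hh1' : σ1 (σ1 h) ≠ σ1 h := by
          rw [hσ1]; exact hh1.symm
        obtain ⟨k1, k2, k3, k4⟩ := hσ12 (σ1 h) hh1'
        refine ⟨h.1, (σ1 h).1, g4, (hiff _).2 (loc_cr hh2 g3), k4, (hiff _).2 (loc_cr ?_ k3), ?_⟩
        · rw [g1]; exact hh2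
        · exact (hc2 h hh1).symm
      · have hXt := (htX X).1 htc
        have h1 : cn (fun e => ρ (a e)) (fun e => ρ (b e)) (T.erase t) X = 1 := by
          rw [← hX1]
          unfold cn
          congr 1
          ext e
          simp only [Finset.mem_filter, Finset.mem_erase]
          have h2 := hcrX X hXt e
          simp only [cr] at h2
          rw [h2]
          constructor
          · rintro ⟨⟨_, h3⟩, h4⟩
            exact ⟨h3, h4⟩
          · rintro ⟨h3, h4⟩
            exact ⟨⟨fun h5 => htc (h5 ▸ h4), h3⟩, h4⟩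
        have h2 : 2 ≤ (univ.filter (fun e => e ∉ T.erase t ∧
            cr (fun e => ρ (a e)) (fun e => ρ (b e)) X e)).card := by
          refine hX2.trans (Finset.card_le_card ?_)
          intro e he
          rw [Finset.mem_filter] at he ⊢
          exact ⟨Finset.mem_univ _, fun h3 => he.2.1 (Finset.mem_of_mem_erase h3),
            (hcrX X hXt e).2 he.2.2⟩
        obtain ⟨e, e', he1, he2, he'1, he'2, hne⟩ := hc'2 X h1 h2
        have key : ∀ e, e ∉ T.erase t → cr (fun e => ρ (a e)) (fun e => ρ (b e)) X e →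
            e ∉ T ∧ cr a b X e ∧ c e = c' e := by
          intro e h3 h4
          have h5 := (hcrX X hXt e).1 h4
          refine ⟨fun h6 => h3 (Finset.mem_erase.2 ⟨fun h7 => htc (h7 ▸ h5), h6⟩), h5, ?_⟩
          apply hc1
          rw [Finset.mem_filter]
          rintro ⟨_, h6⟩
          apply h4
          show ρ (a e) ∈ X ↔ ρ (b e) ∈ X
          rw [h6]
        obtain ⟨p1, p2, p3⟩ := key e he1 he2
        obtain ⟨q1, q2, q3⟩ := key e' he'1 he'2
        exact ⟨e, e', p1, p2, q1, q2, by rw [p3, q3]; exact hne⟩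

/-- the final form of L1 -/
theorem exists_tree_colouring (a b : E → W) (T : Finset E) (hA : Acy a b T) (hS : Spn a b T) :
    ∃ c : E → Fin 3, ∀ X : Finset W, cn a b T X = 1 →
        2 ≤ (univ.filter (fun e => e ∉ T ∧ cr a b X e)).card →
        ∃ e e', e ∉ T ∧ cr a b X e ∧ e' ∉ T ∧ cr a b X e' ∧ c e ≠ c e' := by
  obtain ⟨c, -, hc⟩ := tree_colouring T.card a b T rfl hA hS id (fun _ => rfl)
    (fun h hh => absurd rfl hh)
  exact ⟨c, hc⟩

end Pool.Agent.H126R2.NC
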