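import Pool.Agent.H126R2.NC.L1
import Pool.Agent.H126R2.CDC.Flow8

set_option autoImplicit false
set_option linter.unusedSectionVars false

/-!
L2: in a graph all of whose nonzero cuts have at least three edges, the edges can be coloured with
nine colours so that after deletion of any set of edges of one colour no cut has exactly one edge.
-/

namespace Pool.Agent.H126R2.NC

open Finset
open Pool.Agent.Helper879.ECD (sp Ind sp_mono mem_sp F2 inc fnl fnl_single fnl_inc cn f2_add_self)
open Pool.Agent.H126R2.CDC (rank_cond3 packK)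

variable {W E : Type} [Fintype W] [DecidableEq W] [Fintype E] [DecidableEq E]

/-- a set spanning the incidence vectors meets every nonempty cut -/
lemma spn_of_sp (a b : E → W) (S : Finset E)
    (hS : sp F2 (inc a b) S = sp F2 (inc a b) univ) : Spn a b S := by
  intro X hX e
  have h1 : sp F2 (inc a b) S ≤ LinearMap.ker (fnl (fun w => if w ∈ X then 1 else 0)) := by
    unfold sp
    rw [Submodule.span_le]
    rintro _ ⟨t, ht, rfl⟩
    show fnl (fun w => if w ∈ X then 1 else 0) (inc a b t) = 0
    rw [fnl_inc]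
    have h2 := hX t (Finset.mem_coe.1 ht)
    rw [not_not] at h2
    by_cases h3 : a t ∈ X
    · rw [if_pos h3, if_pos (h2.1 h3)]; exact f2_add_self _
    · rw [if_neg h3, if_neg (fun h => h3 (h2.2 h)), add_zero]
  have h2 : inc a b e ∈ sp F2 (inc a b) S := by
    rw [hS]; exact mem_sp (Finset.mem_univ e)
  have h3 : fnl (fun w => if w ∈ X then 1 else 0) (inc a b e) = 0 := h1 h2
  rw [fnl_inc] at h3
  rw [not_not]
  by_cases h4 : a e ∈ X <;> by_cases h5 : b e ∈ X
  · exact ⟨fun _ => h5, fun _ => h4⟩
  · rw [if_pos h4, if_neg h5, add_zero] at h3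
    exact absurd h3 one_ne_zero
  · rw [if_neg h4, if_pos h5, zero_add] at h3
    exact absurd h3 one_ne_zero
  · exact ⟨fun h => absurd h h4, fun h => absurd h h5⟩

/-- a minimal spanning subset is acyclic -/
lemma exists_base (a b : E → W) (S : Finset E) (hS : Spn a b S) :
    ∃ T ⊆ S, Spn a b T ∧ Acy a b T := by
  classical
  obtain ⟨T, hT, hmin⟩ := Finset.exists_min_image (S.powerset.filter (fun T => Spn a b T))
    Finset.card ⟨S, by rw [Finset.mem_filter]; exact ⟨Finset.mem_powerset_self S, hS⟩⟩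
  rw [Finset.mem_filter, Finset.mem_powerset] at hT
  refine ⟨T, hT.1, hT.2, ?_⟩
  intro t ht
  by_contra hcon
  have h1 : Spn a b (T.erase t) := by
    intro X hX
    apply hT.2
    intro t' ht'
    by_cases htt : t' = t
    · subst htt
      intro hc
      exact hcon ⟨X, hc, fun t'' h2 h3 => hX t'' (Finset.mem_erase.2 ⟨h3, h2⟩)⟩
    · exact hX t' (Finset.mem_erase.2 ⟨htt, ht'⟩)
  have h2 := hmin (T.erase t) (by
    rw [Finset.mem_filter, Finset.mem_powerset]
    exact ⟨(Finset.erase_subset _ _).trans hT.1, h1⟩)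
  have h3 := Finset.card_erase_lt_of_mem ht
  omega

/-- three spanning sets, no edge in all of them -/
lemma exists_three (a b : E → W) (h3 : ∀ X : Finset W, cn a b univ X = 0 ∨ 3 ≤ cn a b univ X) :
    ∃ S : Fin 3 → Finset E, (∀ i, Spn a b (S i)) ∧ ∀ e, ∃ i, e ∉ S i := by
  classical
  have hrank : ∀ R : Finset (E × Fin 2), Fintype.card (Fin 3) *
      Module.finrank F2 (sp F2 (fun p : E × Fin 2 => inc a b p.1) univ) ≤
      Fintype.card (Fin 3) * Module.finrank F2 (sp F2 (fun p : E × Fin 2 => inc a b p.1) R) +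
        (univ.filter (fun p : E × Fin 2 =>
          ¬ inc a b p.1 ∈ sp F2 (fun p : E × Fin 2 => inc a b p.1) R)).card := by
    intro R
    have h1 := rank_cond3 a b h3 (sp F2 (fun p : E × Fin 2 => inc a b p.1) R)
    have h2 : sp F2 (fun p : E × Fin 2 => inc a b p.1) univ = sp F2 (inc a b) univ := by
      unfold sp
      congr 1
      ext u
      simp
    have h3 : (univ.filter (fun p : E × Fin 2 =>
          ¬ inc a b p.1 ∈ sp F2 (fun p : E × Fin 2 => inc a b p.1) R)).card =
        2 * (univ.filter (fun e : E =>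
          ¬ inc a b e ∈ sp F2 (fun p : E × Fin 2 => inc a b p.1) R)).card := by
      have h4 : univ.filter (fun p : E × Fin 2 =>
          ¬ inc a b p.1 ∈ sp F2 (fun p : E × Fin 2 => inc a b p.1) R) =
          (univ.filter (fun e : E =>
          ¬ inc a b e ∈ sp F2 (fun p : E × Fin 2 => inc a b p.1) R)) ×ˢ (univ : Finset (Fin 2)) := by
        ext p; simp
      rw [h4, Finset.card_product, Finset.card_univ, Fintype.card_fin, mul_comm]
    rw [h2, h3, Fintype.card_fin]
    exact h1
  obtain ⟨I, hd, hI⟩ := packK (K := Fin 3) (F := F2)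
    (x := fun p : E × Fin 2 => inc a b p.1) hrank
  have hT : ∀ i : Fin 3, sp F2 (inc a b) ((I i).image Prod.fst) = sp F2 (inc a b) univ := by
    intro i
    have h1 := hI i
    have h2 : sp F2 (fun p : E × Fin 2 => inc a b p.1) univ = sp F2 (inc a b) univ := by
      unfold sp
      congr 1
      ext u
      simp
    have h3 : sp F2 (fun p : E × Fin 2 => inc a b p.1) (I i) =
        sp F2 (inc a b) ((I i).image Prod.fst) := by
      unfold sp
      congr 1
      ext u
      simp
    rw [← h3, h1, h2]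
  refine ⟨fun i => (I i).image Prod.fst, fun i => spn_of_sp a b _ (hT i), ?_⟩
  intro e
  by_contra hcon
  push Not at hcon
  have hmem : ∀ i : Fin 3, ∃ j : Fin 2, (e, j) ∈ I i := by
    intro i
    obtain ⟨⟨e', j⟩, hp, rfl⟩ := Finset.mem_image.1 (hcon i)
    exact ⟨j, hp⟩
  choose j hj using hmem
  obtain ⟨i1, i2, hne, heq⟩ := Fintype.exists_ne_map_eq_of_card_lt j (by simp)
  have h1 := hj i1
  have h2 := hj i2
  rw [heq] at h1
  exact Finset.disjoint_left.1 (hd i1 i2 hne) h1 h2

/-- L2: nine colours such that deleting a set of edges of one colour leaves no cut of size one -/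
theorem nine_colouring (a b : E → W)
    (h3 : ∀ X : Finset W, cn a b univ X = 0 ∨ 3 ≤ cn a b univ X) :
    ∃ col : E → Fin 3 × Fin 3, ∀ (X : Finset E) (γ : Fin 3 × Fin 3), (∀ e ∈ X, col e = γ) →
      ∀ B : Finset W, cn a b (univ \ X) B ≠ 1 := by
  classical
  obtain ⟨S, hS, hmiss⟩ := exists_three a b h3
  choose T hTS hTspn hTacy using fun i => exists_base a b (S i) (hS i)
  choose i hi using hmiss
  choose c hc using fun i => exists_tree_colouring a b (T i) (hTacy i) (hTspn i)
  refine ⟨fun e => (i e, c (i e) e), ?_⟩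
  intro X γ hX B hB
  unfold cn at hB
  obtain ⟨t, ht⟩ := Finset.card_eq_one.1 hB
  have hmem : ∀ e, (e ∉ X ∧ cr a b B e) ↔ e = t := by
    intro e
    have : e ∈ (univ \ X).filter (fun e => ¬ (a e ∈ B ↔ b e ∈ B)) ↔ e ∈ ({t} : Finset E) := by
      rw [ht]
    simpa [cr] using this
  obtain ⟨htX, htB⟩ := (hmem t).2 rfl
  have hXT : ∀ e ∈ T γ.1, e ∉ X := by
    intro e he heX
    have h1 := hX e heX
    have h2 : i e = γ.1 := by rw [← h1]
    exact hi e (h2 ▸ hTS _ he)
  have htT : t ∈ T γ.1 := by
    by_contra htT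
    refine hTspn γ.1 B ?_ t htB
    intro e he hc
    have := (hmem e).1 ⟨hXT e he, hc⟩
    exact htT (this ▸ he)
  have hcn : cn a b (T γ.1) B = 1 := by
    unfold cn
    rw [Finset.card_eq_one]
    refine ⟨t, ?_⟩
    ext e
    rw [Finset.mem_filter, Finset.mem_singleton]
    constructor
    · rintro ⟨h1, h2⟩
      exact (hmem e).1 ⟨hXT e h1, h2⟩
    · rintro rfl
      exact ⟨htT, htB⟩
  have h3B : 3 ≤ cn a b univ B := by
    rcases h3 B with h | h
    · exfalso
      unfold cn at h
      rw [Finset.card_eq_zero] at h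
      have : t ∈ univ.filter (fun e => ¬ (a e ∈ B ↔ b e ∈ B)) :=
        Finset.mem_filter.2 ⟨Finset.mem_univ _, htB⟩
      rw [h] at this
      simp at this
    · exact h
  have h2 : 2 ≤ (univ.filter (fun e => e ∉ T γ.1 ∧ cr a b B e)).card := by
    have h4 : (univ.filter (fun e => ¬ (a e ∈ B ↔ b e ∈ B))) ⊆
        insert t (univ.filter (fun e => e ∉ T γ.1 ∧ cr a b B e)) := by
      intro e he
      rw [Finset.mem_filter] at he
      rw [Finset.mem_insert, Finset.mem_filter]
      by_cases heT : e ∈ T γ.1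
      · left
        exact (hmem e).1 ⟨hXT e heT, he.2⟩
      · right
        exact ⟨Finset.mem_univ _, heT, he.2⟩
    have h5 := Finset.card_le_card h4
    have h6 := Finset.card_insert_le t (univ.filter (fun e => e ∉ T γ.1 ∧ cr a b B e))
    unfold cn at h3B
    omega
  obtain ⟨e, e', he1, he2, he'1, he'2, hne⟩ := hc γ.1 B hcn h2
  have key : ∀ e, e ∉ T γ.1 → cr a b B e → c γ.1 e = γ.2 := by
    intro e h1 h2
    have h3 : e ∈ X := by
      by_contra h4
      exact h1 (((hmem e).1 ⟨h4, h2⟩) ▸ htT)
    have h4 := hX e h3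
    have h5 : i e = γ.1 := by rw [← h4]
    have h6 : c (i e) e = γ.2 := by rw [← h4]
    rw [← h5]; exact h6
  exact hne ((key e he1 he2).trans (key e' he'1 he'2).symm)

end Pool.Agent.H126R2.NC
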